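import Mathlib
import Pool.Agent.Helper1_PRS.Stmts

/-! # Squad PRS: module PAT -/

set_option autoImplicit false

universe u

namespace Pool.Agent.PRS.H48

open PGH

section

variable {L E : Type*} [Field L] [Field E] [Algebra L E] (P : Place L E)

theorem ord_prod {ι : Type*} (s : Finset ι) (f : ι → E) (h : ∀ i ∈ s, f i ≠ 0) :
    P.ord (∏ i ∈ s, f i) = ∑ i ∈ s, P.ord (f i) := by
  classical
  induction s using Finset.induction_on with
  | empty => simp
  | insert a s ha ih =>
    rw [Finset.prod_insert ha, Finset.sum_insert ha,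
      P.ord_mul (h a (Finset.mem_insert_self _ _))
        (Finset.prod_ne_zero_iff.2 (fun i hi => h i (Finset.mem_insert_of_mem hi))),
      ih (fun i hi => h i (Finset.mem_insert_of_mem hi))]

theorem ord_eq_zero {y : E} (hy : y ≠ 0) (h0 : P.Ge 0 y) (h1 : ¬ P.Ge 1 y) : P.ord y = 0 := by
  rw [P.ge_iff hy] at h0 h1
  omega

end

theorem pat : PatStmt.{u} := by
  intro L E _ _ _ P N R x a α M b z hinj hne hrel hb c c' i hcc hord hreg
  by_contra hcon
  push Not at hcon
  obtain ⟨hb0, hR, hM⟩ := hrel
  obtain ⟨r, hr⟩ := hM (c, i)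
  have hne' : ∀ q : Par N, x q.1 - algebraMap L E (a q) ≠ 0 := fun q => sub_ne_zero.2 (hne q)
  -- the orders of the factors
  have hords : ∀ q : Par N, P.ord (x q.1 - algebraMap L E (a q)) = if q = (c, i) then 1 else 0 := by
    rintro ⟨c1, i1⟩
    by_cases hc1 : c1 = c
    · subst hc1
      by_cases hi1 : i1 = i
      · subst hi1
        rw [if_pos rfl]; exact hord
      · rw [if_neg (by simp [hi1])]
        have hG1 : P.Ge 1 (x c1 - algebraMap L E (a (c1, i))) :=
          (P.ge_iff (hne' (c1, i))).2 hord.ge
        have hx : x c1 - algebraMap L E (a (c1, i1)) =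
            (x c1 - algebraMap L E (a (c1, i))) + algebraMap L E (a (c1, i) - a (c1, i1)) := by
          rw [map_sub]; ring
        apply ord_eq_zero P (hne' (c1, i1))
        · show P.Ge 0 (x c1 - algebraMap L E (a (c1, i1)))
          rw [hx]
          exact (hG1.mono (by norm_num)).add (P.ge_const _)
        · intro h1
          have h2 := (show P.Ge 1 (x c1 - algebraMap L E (a (c1, i1))) from h1).sub hG1
          rw [hx, add_sub_cancel_left] at h2
          refine P.not_ge_one_const (sub_ne_zero.2 ?_) h2
          intro h3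
          exact hi1 ((hinj c1) h3).symm
    · have hc2 : c1 = c' := by
        have h1 := c1.2; have h2 := c.2; have h3 := c'.2
        apply Fin.ext
        have h4 : (c : ℕ) ≠ c' := fun h => hcc (Fin.ext h)
        have h5 : (c1 : ℕ) ≠ c := fun h => hc1 (Fin.ext h)
        omega
      subst hc2
      rw [if_neg (by simp [hc1])]
      apply ord_eq_zero P (hne' (c1, i1))
      · exact hreg.sub (P.ge_const _)
      · exact hcon i1
  have hz := congrArg P.ord (hR r)
  rw [ord_prod P _ _ (fun q _ => zpow_ne_zero _ (hne' q))] at hz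
  have hsum : ∑ q : Par N, P.ord ((x q.1 - algebraMap L E (a q)) ^ α r q) = α r (c, i) := by
    have : ∀ q : Par N, P.ord ((x q.1 - algebraMap L E (a q)) ^ α r q) =
        if q = (c, i) then α r q else 0 := by
      intro q
      rw [P.ord_zpow, hords q]
      split_ifs <;> simp
    rw [Finset.sum_congr rfl (fun q _ => this q), Finset.sum_ite_eq' Finset.univ (c, i)]
    simp
  have hprod0 : (∏ q : Par N, (x q.1 - algebraMap L E (a q)) ^ α r q) ≠ 0 :=
    Finset.prod_ne_zero_iff.2 (fun q _ => zpow_ne_zero _ (hne' q))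
  have hzM : z r ^ M r ≠ 0 := by
    intro h0
    apply hprod0
    rw [hR r, h0, mul_zero]
  rw [hsum, P.ord_mul (hb0 r) hzM, hb r, zero_add, P.ord_pow] at hz
  exact hr ⟨_, hz⟩

end Pool.Agent.PRS.H48
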